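import Pool.Agent.Helper3.CB.LcH
import Pool.Agent.Helper17.CB.ValUp
import Pool.Agent.Helper38.CB.SqVal
import Pool.Agent.Helper10.CB.SqRes

/-! A7 of the algebraic block. -/

namespace Pool.Agent.Helper3.CB

open NumberField Pool.Agent.Helper16.CB

/-- A7 -/
theorem lc_of_harm {K L : Type*} [Field K] [NumberField K] [Field L] [NumberField L] [Algebra K L]
    {J : ℕ} {ζ : L} (hζ : IsPrimitiveRoot ζ (2 ^ J)) {a b : 𝓞 K} (ha : a ≠ 0) (hb : b ≠ 0)
    {q : Ideal (𝓞 L)} (hq : q.IsPrime) (hq0 : q ≠ ⊥)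
    (h : Harm J a b (q.comap (algebraMap (𝓞 K) (𝓞 L)))) :
    LC q (algebraMap (𝓞 K) (𝓞 L) a) (algebraMap (𝓞 K) (𝓞 L) b) := by
  obtain ⟨e, he1, hmem, hval⟩ := Helper17.CB.val_up (K := K) hq hq0
  exact lc_of_harm_of ha hb hq hq0 he1 hmem hval
    (fun hodd hJ x m hx => Helper38.CB.sq_val_of hq hodd
      (fun y hy => Helper10.CB.sq_res hζ (Ideal.comap_isPrime _ _) (comap_ne_bot hq0) hodd hJ hq
        rfl hy) hx hmem) h

end Pool.Agent.Helper3.CB
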