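import Pool.Agent.Helper16.CB.Defs

/-! Valuations at a prime of a Dedekind domain. -/

namespace Pool.Agent.Helper3.CB

open NumberField Pool.Agent.Helper16.CB

lemma val_iff {R : Type*} [CommRing R] [IsDedekindDomain R] {p : Ideal R} {a : R} {n : ℕ} :
    Val p a n ↔ emultiplicity p (Ideal.span {a}) = n := by
  rw [emultiplicity_eq_coe, Ideal.dvd_span_singleton, Ideal.dvd_span_singleton]
  rfl

lemma val_mul {R : Type*} [CommRing R] [IsDedekindDomain R] {p : Ideal R} (hp : p.IsPrime)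
    (hp0 : p ≠ ⊥) {a b : R} {m n : ℕ} (ha : Val p a m) (hb : Val p b n) :
    Val p (a * b) (m + n) := by
  rw [val_iff] at *
  rw [← Ideal.span_singleton_mul_span_singleton,
    emultiplicity_mul (Ideal.prime_of_isPrime hp0 hp), ha, hb]
  rfl

lemma val_exists {R : Type*} [CommRing R] [IsDedekindDomain R] {p : Ideal R} (hp : p.IsPrime)
    (hp0 : p ≠ ⊥) {a : R} (ha : a ≠ 0) : ∃ n, Val p a n := by
  have h1 : FiniteMultiplicity p (Ideal.span {a}) := by
    refine FiniteMultiplicity.of_prime_left (Ideal.prime_of_isPrime hp0 hp) ?_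
    rw [Ne, Submodule.zero_eq_bot, Ideal.span_singleton_eq_bot]
    exact ha
  refine ⟨multiplicity p (Ideal.span {a}), ?_⟩
  rw [val_iff]
  exact h1.emultiplicity_eq_multiplicity

lemma comap_ne_bot {K L : Type*} [Field K] [NumberField K] [Field L] [NumberField L] [Algebra K L]
    {q : Ideal (𝓞 L)} (hq0 : q ≠ ⊥) : q.comap (algebraMap (𝓞 K) (𝓞 L)) ≠ ⊥ := by
  obtain ⟨x, hx, hx0⟩ := Submodule.exists_mem_ne_zero_of_ne_bot hq0
  have : Algebra.IsIntegral (𝓞 K) (𝓞 L) := inferInstance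
  exact Ideal.comap_ne_bot_of_integral_mem hx0 hx (Algebra.IsIntegral.isIntegral x)

end Pool.Agent.Helper3.CB
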