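import Pool.Agent.Helper3.CB.PwA

/-! The pointwise theorem for products of powers, with further factors of any degree. -/

set_option autoImplicit false

namespace Pool.Agent.Helper3.CB

open NumberField Polynomial Pool.Agent.Helper4.CB Pool.Agent.Helper16.CB

/-- the first coefficient of the conic -/
noncomputable def vA {K : Type} [Field K] [NumberField K] (S : Finset (𝓞 K)[X]) (α : 𝓞 K) (ε : ℕ)
    (e : (𝓞 K)[X] → ℕ) (u V : 𝓞 K) : 𝓞 K :=
  α * V ^ ε * ∏ P ∈ S, hv P u V ^ e P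

/-- the second coefficient of the conic -/
noncomputable def vB {K : Type} [Field K] [NumberField K] (S : Finset (𝓞 K)[X])
    (f : (𝓞 K)[X] → ℕ) (u V : 𝓞 K) : 𝓞 K :=
  ∏ P ∈ S, hv P u V ^ f P

/-- the homogenised value -/
theorem hv_eq {K : Type} [Field K] [NumberField K] (P : (𝓞 K)[X]) (u : 𝓞 K) {V : 𝓞 K}
    (hV : V ≠ 0) :
    ((hv P u V : 𝓞 K) : K) =
      (V : K) ^ P.natDegree * (P.map (algebraMap (𝓞 K) K)).eval ((u : K) / V) := by
  have hVK : (V : K) ≠ 0 := by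
    intro h
    exact hV (RingOfIntegers.coe_eq_zero_iff.1 h)
  change algebraMap (𝓞 K) K ((P.scaleRoots V).eval u) =
    (algebraMap (𝓞 K) K V) ^ P.natDegree *
      (P.map (algebraMap (𝓞 K) K)).eval (algebraMap (𝓞 K) K u / algebraMap (𝓞 K) K V)
  rw [eval_eq_sum_range, natDegree_scaleRoots, eval_eq_sum_range,
    natDegree_map_eq_of_injective (RingOfIntegers.coe_injective), Finset.mul_sum, map_sum]
  refine Finset.sum_congr rfl fun i hi => ?_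
  rw [Finset.mem_range] at hi
  rw [coeff_scaleRoots, coeff_map]
  simp only [map_mul, map_pow, div_pow]
  have h1 : (algebraMap (𝓞 K) K V) ^ P.natDegree =
      (algebraMap (𝓞 K) K V) ^ (P.natDegree - i) * (algebraMap (𝓞 K) K V) ^ i := by
    rw [← pow_add]
    congr 1
    omega
  rw [h1]
  have h2 : (algebraMap (𝓞 K) K V) ^ i ≠ 0 := pow_ne_zero _ hVK
  field_simp

/-- **PWG.** -/
theorem pwG_of (K : Type) [Field K] [NumberField K] (halg : ∀ J, AlgStmt K J) (dm : ℕ)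
    (hs : SieveStmt K dm) (D : ℕ) :
    ∃ (L : Type) (_ : Field L) (_ : Algebra K L), FiniteDimensional K L ∧
    ∀ S₀ : Finset (𝓞 K)[X], (∀ P ∈ S₀, P.Monic ∧ 1 ≤ P.natDegree ∧
      Irreducible (P.map (algebraMap (𝓞 K) K))) →
    ∀ S ⊆ S₀, S.card ≤ D → (∀ P ∈ S, P.natDegree ≤ dm) →
    ∀ e f : (𝓞 K)[X] → ℕ, Even (∑ P ∈ S₀, f P * P.natDegree) →
    ∀ α : 𝓞 K, α ≠ 0 → ∀ ε m1 : ℕ, m1 ≠ 0 →
    (∀ P ∈ S₀, P ∉ S → ∀ p : Ideal (𝓞 K), p.IsPrime → p ≠ ⊥ → (m1 : 𝓞 K) ∉ p →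
      ∀ u V : 𝓞 K, V ∉ p → (∀ P' ∈ S₀, hv P' u V ≠ 0) → hv P u V ∈ p →
      LC p (vA S₀ α ε e u V) (vB S₀ f u V)) →
    ∀ Z : Finset K,
    ∃ (m : ℕ) (u v : 𝓞 K), m ≠ 0 ∧ v ≠ 0 ∧ m1 ∣ m ∧ (u : K) / (m * v) ∉ Z ∧
      (∀ P ∈ S₀, hv P u (m * v) ≠ 0) ∧
      ∃ x y : L, x ^ 2 - algebraMap K L (vA S₀ α ε e u (m * v) : K) * y ^ 2 =
        algebraMap K L (vB S₀ f u (m * v) : K) := by
  classical
  obtain ⟨J, hJ1, hJ⟩ := hs D
  obtain ⟨F, hfin, hF⟩ := halg J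
  refine ⟨F, inferInstance, inferInstance, hfin, ?_⟩
  intro S₀ hS₀ S hSS hcard hdm e f hf α hα ε m1 hm10 hfree Z
  have hN0 : Ideal.absNorm (Ideal.span {α}) ≠ 0 := by
    rw [Ne, Ideal.absNorm_eq_zero_iff, Ideal.span_singleton_eq_bot]
    exact hα
  obtain ⟨m, u, v, T, hm0, hm1, -, hv0, -, hcop, hZ, hP⟩ := hJ S hcard
    (fun P hP => ⟨(hS₀ P (hSS hP)).1, (hS₀ P (hSS hP)).2.1, hdm P hP, (hS₀ P (hSS hP)).2.2⟩)
    (2 * Ideal.absNorm (Ideal.span {α}) * m1) (by positivity)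
    (Z ∪ S₀.biUnion fun P => (P.map (algebraMap (𝓞 K) K)).roots.toFinset)
  have hmK : (m : 𝓞 K) ≠ 0 := by exact_mod_cast hm0
  have hV0 : (m : 𝓞 K) * v ≠ 0 := mul_ne_zero hmK hv0
  rw [Finset.mem_union, not_or] at hZ
  have hcoe : ((u : K) / (m * v) : K) = (u : K) / (((m : 𝓞 K) * v : 𝓞 K) : K) := by
    simp
  have hne : ∀ P ∈ S₀, hv P u (m * v) ≠ 0 := by
    intro P hPS h0
    apply hZ.2
    rw [Finset.mem_biUnion]
    refine ⟨P, hPS, ?_⟩
    rw [Multiset.mem_toFinset, mem_roots (hS₀ P hPS).2.2.ne_zero, IsRoot.def]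
    have h1 := hv_eq P u hV0
    rw [h0, ← hcoe] at h1
    have h2 : ((0 : 𝓞 K) : K) = 0 := rfl
    rw [h2] at h1
    have h3 : ((((m : 𝓞 K) * v : 𝓞 K) : K)) ^ P.natDegree ≠ 0 :=
      pow_ne_zero _ fun h => hV0 (RingOfIntegers.coe_eq_zero_iff.1 h)
    rcases mul_eq_zero.1 h1.symm with h4 | h4
    · exact absurd h4 h3
    · exact h4
  refine ⟨m, u, v, hm0, hv0, (Dvd.intro_left _ rfl).trans hm1, hZ.1, hne, ?_⟩
  have hA : vA S₀ α ε e u (m * v) ≠ 0 := by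
    refine mul_ne_zero (mul_ne_zero hα (pow_ne_zero _ hV0)) ?_
    exact Finset.prod_ne_zero_iff.2 fun P hPS => pow_ne_zero _ (hne P hPS)
  have hB : vB S₀ f u (m * v) ≠ 0 :=
    Finset.prod_ne_zero_iff.2 fun P hPS => pow_ne_zero _ (hne P hPS)
  refine hF _ _ hA hB ?_
  intro p hp hp0 hmem
  by_cases hmv : (m : 𝓞 K) * v ∈ p
  · right
    have hu : u ∉ p := by
      intro hu
      obtain ⟨c, d, hcd⟩ := hcop
      apply hp.ne_top
      rw [Ideal.eq_top_iff_one, ← hcd]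
      exact p.add_mem (p.mul_mem_left _ hu) (p.mul_mem_left _ hmv)
    obtain ⟨k, hk⟩ := hf.two_dvd
    have h1 := prod_sub_mem (S := S₀) (fun P hPS => (hS₀ P hPS).1) f (u := u) hmv
    rw [hk, mul_comm 2 k, pow_mul] at h1
    refine lc_of_mem hp hA ?_ h1
    intro h2
    have h3 := p.sub_mem h2 h1
    unfold vB at h3
    rw [sub_sub_cancel] at h3
    exact hu (hp.mem_of_pow_mem _ (hp.mem_of_pow_mem _ h3))
  · have h2m : (2 : 𝓞 K) ∣ m := by
      have h3 : 2 ∣ m := ((Dvd.intro _ rfl).trans (Dvd.intro _ rfl)).trans hm1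
      exact_mod_cast (Nat.cast_dvd_cast (α := 𝓞 K) h3)
    have hmp : (m : 𝓞 K) ∉ p := fun h => hmv (p.mul_mem_right _ h)
    have h2p : (2 : 𝓞 K) ∉ p := fun h => hmp (mem_dvd h2m h)
    have hm1p : (m1 : 𝓞 K) ∉ p := fun h =>
      hmp (mem_dvd (Nat.cast_dvd_cast ((Dvd.intro_left _ rfl).trans hm1)) h)
    have hαp : α ∉ p := by
      intro h
      apply hmp
      have h4 : (Ideal.absNorm (Ideal.span {α}) : 𝓞 K) ∣ m := by
        have h5 : Ideal.absNorm (Ideal.span {α}) ∣ m :=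
          ((Dvd.intro_left _ rfl).trans (Dvd.intro _ rfl)).trans hm1
        exact Nat.cast_dvd_cast h5
      refine mem_dvd h4 ?_
      have h6 := Ideal.absNorm_mem (Ideal.span {α})
      exact (Ideal.span_singleton_le_iff_mem p).2 h h6
    have key : ∀ g : (𝓞 K)[X] → ℕ, ∏ P ∈ S₀, hv P u (m * v) ^ g P ∈ p →
        Harm J (vA S₀ α ε e u (m * v)) (vB S₀ f u (m * v)) p := by
      intro g hg
      obtain ⟨P, hPS, hPp⟩ := (Ideal.IsPrime.prod_mem_iff).1 hg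
      by_cases hPS1 : P ∈ S
      · left
        exact ⟨odd_absNorm hp hp0 h2p,
          (hP P hPS1).2 ⟨p, hp, hp0⟩ (hp.mem_of_pow_mem _ hPp)⟩
      · right
        exact hfree P hPS hPS1 p hp hp0 hm1p u _ hmv hne (hp.mem_of_pow_mem _ hPp)
    rcases hp.mem_or_mem hmem with h3 | h3
    · rcases hp.mem_or_mem h3 with h4 | h4
      · rcases hp.mem_or_mem h4 with h5 | h5
        · exact absurd h5 hαp
        · exact absurd (hp.mem_of_pow_mem _ h5) hmv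
      · exact key e h4
    · exact key f h3

end Pool.Agent.Helper3.CB
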