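import Pool.Agent.Helper16.CB.Val

/-! The local condition and multiplication with squares modulo the prime. -/

set_option autoImplicit false

namespace Pool.Agent.Helper3.CB

open Pool.Agent.Helper16.CB

lemma not_mem_of_sub_sq {R : Type*} [CommRing R] {q : Ideal R} (hq : q.IsPrime) {a ρ : R}
    (hρ : ρ ∉ q) (ha : a - ρ ^ 2 ∈ q) : a ∉ q := by
  intro h
  have h1 := q.sub_mem h ha
  rw [sub_sub_cancel] at h1
  exact hρ (hq.mem_of_pow_mem _ h1)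

lemma twist_aux {R : Type*} [CommRing R] {q : Ideal R} {b b' h σ : R} {n : ℕ} (hb : b ∈ q ^ n)
    (hb' : b' - σ ^ 2 ∈ q) (hh : b - h ^ 2 ∈ q ^ (n + 1)) :
    b * b' - (h * σ) ^ 2 ∈ q ^ (n + 1) := by
  have h1 : b * b' - (h * σ) ^ 2 = b * (b' - σ ^ 2) + σ ^ 2 * (b - h ^ 2) := by ring
  rw [h1]
  refine Ideal.add_mem _ ?_ (Ideal.mul_mem_left _ _ hh)
  rw [pow_succ]
  exact Ideal.mul_mem_mul hb hb'

/-- **TWIST.** `(odd, even)`: `h * σ`; `(odd, odd)`: `h * ρ * σ`. -/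
theorem lc_twist {R : Type*} [CommRing R] [IsDedekindDomain R] {q : Ideal R} (hq : q.IsPrime)
    (hq0 : q ≠ ⊥) {a b a' b' ρ σ : R} (hρ : ρ ∉ q) (hσ : σ ∉ q) (ha : a' - ρ ^ 2 ∈ q)
    (hb : b' - σ ^ 2 ∈ q) (h : LC q a b) : LC q (a * a') (b * b') := by
  obtain ⟨α, β, hα, hβ, hc⟩ := h
  have ha' : Val q a' 0 := val_zero_iff.2 (not_mem_of_sub_sq hq hρ ha)
  have hb' : Val q b' 0 := val_zero_iff.2 (not_mem_of_sub_sq hq hσ hb)
  refine ⟨α, β, by simpa using hα.mul hq hq0 ha', by simpa using hβ.mul hq hq0 hb', ?_⟩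
  rcases hc with hc | ⟨h1, h2, g, hg⟩ | ⟨h1, h2, g, hg⟩ | ⟨h1, h2, g, hg⟩
  · exact Or.inl hc
  · exact Or.inr (Or.inl ⟨h1, h2, g * σ, twist_aux hβ.1 hb hg⟩)
  · exact Or.inr (Or.inr (Or.inl ⟨h1, h2, g * ρ, twist_aux hα.1 ha hg⟩))
  · refine Or.inr (Or.inr (Or.inr ⟨h1, h2, g * (ρ * σ), ?_⟩))
    have h3 : a' * b' - (ρ * σ) ^ 2 ∈ q := by
      have h4 : a' * b' - (ρ * σ) ^ 2 = a' * (b' - σ ^ 2) + σ ^ 2 * (a' - ρ ^ 2) := by ring
      rw [h4]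
      exact q.add_mem (q.mul_mem_left _ hb) (q.mul_mem_left _ ha)
    have h5 : -(a * b) ∈ q ^ (α + β) := neg_mem (hα.mul hq hq0 hβ).1
    have h6 := twist_aux h5 h3 hg
    have h7 : -(a * a' * (b * b')) = -(a * b) * (a' * b') := by ring
    rw [h7]
    exact h6

end Pool.Agent.Helper3.CB
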