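import Pool.Agent.Helper4.CB.STX
import Pool.Agent.Helper79.CB.LcMul
import Pool.Agent.Helper3.CB.PwG
import Pool.Agent.Helper3.CB.Twist

/-! The step: one more variable, integral form, with further factors of any degree. -/

set_option autoImplicit false

namespace Pool.Agent.Helper3.CB

open NumberField Polynomial Pool.Agent.Helper4.CB Pool.Agent.Helper16.CB

/-- the degree of the product of the powers -/
noncomputable def dg {K : Type} [Field K] [NumberField K] (S : Finset (𝓞 K)[X])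
    (e : (𝓞 K)[X] → ℕ) : ℕ :=
  ∑ P ∈ S, e P * P.natDegree

lemma harm_mono {K : Type} [Field K] [NumberField K] {J J' : ℕ} (hJ : J ≤ J') {a b : 𝓞 K}
    {p : Ideal (𝓞 K)} (h : Harm J a b p) : Harm J' a b p := by
  rcases h with ⟨h1, h2⟩ | h
  · exact Or.inl ⟨h1, fun h3 => h2 (h3.of_dvd (pow_dvd_pow 2 hJ))⟩
  · exact Or.inr h

/-- at the primes which divide `m`: the value is `α` times a square modulo the prime -/
lemma value_sq {K : Type} [Field K] [NumberField K] {p : Ideal (𝓞 K)}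
    {S : Finset (𝓞 K)[X]} (hS : ∀ P ∈ S, P.Monic) (e : (𝓞 K)[X] → ℕ) {u v V r : 𝓞 K} (hV : V ∈ p)
    (hu : u - r ∈ p) (hv' : v - r ∈ p) :
    v ^ dg S e * ∏ P ∈ S, hv P u V ^ e P - (r ^ dg S e) ^ 2 ∈ p := by
  have h1 := prod_sub_mem hS e (u := u) hV
  have h2 : u ^ dg S e - r ^ dg S e ∈ p := mem_dvd (sub_dvd_pow_sub_pow _ _ _) hu
  have h3 : v ^ dg S e - r ^ dg S e ∈ p := mem_dvd (sub_dvd_pow_sub_pow _ _ _) hv'
  have h4 : v ^ dg S e * ∏ P ∈ S, hv P u V ^ e P - (r ^ dg S e) ^ 2 =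
      v ^ dg S e * (∏ P ∈ S, hv P u V ^ e P - u ^ dg S e) +
      v ^ dg S e * (u ^ dg S e - r ^ dg S e) + r ^ dg S e * (v ^ dg S e - r ^ dg S e) := by
    ring
  rw [h4]
  exact p.add_mem (p.add_mem (p.mul_mem_left _ h1) (p.mul_mem_left _ h2)) (p.mul_mem_left _ h3)

/-- **STEP**, integral form. -/
theorem stepG (K : Type) [Field K] [NumberField K] (dm : ℕ) (hs : SieveX K dm) (D J0 : ℕ) :
    ∃ J : ℕ, J0 ≤ J ∧ ∀ S₀ : Finset (𝓞 K)[X], (∀ P ∈ S₀, P.Monic ∧ 1 ≤ P.natDegree ∧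
      Irreducible (P.map (algebraMap (𝓞 K) K))) →
    ∀ S ⊆ S₀, S.card ≤ D → (∀ P ∈ S, P.natDegree ≤ dm) →
    ∀ e f : (𝓞 K)[X] → ℕ, ∀ α β : 𝓞 K, α ≠ 0 → β ≠ 0 →
    (∀ p : Ideal (𝓞 K), p.IsPrime → p ≠ ⊥ → α * β ∈ p → Harm J0 α β p) →
    ∀ m1 : ℕ, m1 ≠ 0 →
    (∀ P ∈ S₀, P ∉ S → ∀ p : Ideal (𝓞 K), p.IsPrime → p ≠ ⊥ → (m1 : 𝓞 K) ∉ p →
      ∀ u V : 𝓞 K, V ∉ p → (∀ P' ∈ S₀, hv P' u V ≠ 0) → hv P u V ∈ p →
      LC p (vA S₀ α (dg S₀ e) e u V) (vA S₀ β (dg S₀ f) f u V)) →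
    ∀ Z : Finset K,
    ∃ (m : ℕ) (u v : 𝓞 K), m ≠ 0 ∧ v ≠ 0 ∧ m1 ∣ m ∧ (u : K) / (m * v) ∉ Z ∧
      (∀ P ∈ S₀, hv P u (m * v) ≠ 0) ∧
      ∀ p : Ideal (𝓞 K), p.IsPrime → p ≠ ⊥ →
        vA S₀ α (dg S₀ e) e u (m * v) * vA S₀ β (dg S₀ f) f u (m * v) ∈ p →
        Harm J (vA S₀ α (dg S₀ e) e u (m * v)) (vA S₀ β (dg S₀ f) f u (m * v)) p := by
  classical
  obtain ⟨J, hJ1, hJ0, hJ⟩ := hs D J0
  refine ⟨J, hJ0, ?_⟩
  intro S₀ hS₀ S hSS hcard hdm e f α β hα hβ hharm m1 hm10 hfree Z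
  have hN : ∀ a : 𝓞 K, a ≠ 0 → Ideal.absNorm (Ideal.span {a}) ≠ 0 := by
    intro a ha
    rw [Ne, Ideal.absNorm_eq_zero_iff, Ideal.span_singleton_eq_bot]
    exact ha
  have hNα := hN α hα
  have hNβ := hN β hβ
  obtain ⟨m, r, u, v, hm0, hm1, hsq, hrm, hv0, hur, hvr, hcop, hZ, hP⟩ := hJ S hcard
    (fun P hP => ⟨(hS₀ P (hSS hP)).1, (hS₀ P (hSS hP)).2.1, hdm P hP, (hS₀ P (hSS hP)).2.2⟩)
    (2 * Ideal.absNorm (Ideal.span {α}) * Ideal.absNorm (Ideal.span {β}) * m1) (by positivity)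
    (Z ∪ S₀.biUnion fun P => (P.map (algebraMap (𝓞 K) K)).roots.toFinset)
  have hmK : (m : 𝓞 K) ≠ 0 := by exact_mod_cast hm0
  have hV0 : (m : 𝓞 K) * v ≠ 0 := mul_ne_zero hmK hv0
  rw [Finset.mem_union, not_or] at hZ
  have hcoe : ((u : K) / (m * v) : K) = (u : K) / (((m : 𝓞 K) * v : 𝓞 K) : K) := by
    simp
  have hne : ∀ P ∈ S₀, hv P u (m * v) ≠ 0 := by
    intro P hPS h0
    apply hZ.2
    rw [Finset.mem_biUnion]
    refine ⟨P, hPS, ?_⟩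
    rw [Multiset.mem_toFinset, mem_roots (hS₀ P hPS).2.2.ne_zero, IsRoot.def]
    have h1 := hv_eq P u hV0
    rw [h0, ← hcoe] at h1
    have h2 : ((0 : 𝓞 K) : K) = 0 := rfl
    rw [h2] at h1
    have h3 : ((((m : 𝓞 K) * v : 𝓞 K) : K)) ^ P.natDegree ≠ 0 :=
      pow_ne_zero _ fun h => hV0 (RingOfIntegers.coe_eq_zero_iff.1 h)
    rcases mul_eq_zero.1 h1.symm with h4 | h4
    · exact absurd h4 h3
    · exact h4
  refine ⟨m, u, v, hm0, hv0, (Dvd.intro_left _ rfl).trans hm1, hZ.1, hne, ?_⟩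
  intro p hp hp0 hmem
  obtain ⟨m₀, hm₀⟩ := hsq
  by_cases hmp : (m : 𝓞 K) ∈ p
  · -- primes which divide `m`
    have hr : (r : 𝓞 K) ∉ p := by
      intro hr
      have h1 : IsCoprime (r : ℤ) (m : ℤ) := Nat.isCoprime_iff_coprime.2 hrm
      obtain ⟨c, d, hcd⟩ := h1
      apply hp.ne_top
      rw [Ideal.eq_top_iff_one]
      have h2 : (c : 𝓞 K) * (r : 𝓞 K) + (d : 𝓞 K) * (m : 𝓞 K) = 1 := by
        exact_mod_cast congrArg (Int.cast : ℤ → 𝓞 K) hcd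
      rw [← h2]
      exact p.add_mem (p.mul_mem_left _ hr) (p.mul_mem_left _ hmp)
    have hu : u - r ∈ p := mem_dvd hur hmp
    have hvv : v - r ∈ p := mem_dvd hvr hmp
    have hVp : (m : 𝓞 K) * v ∈ p := p.mul_mem_right _ hmp
    have hmon : ∀ P ∈ S₀, P.Monic := fun P hP => (hS₀ P hP).1
    have hx := value_sq hmon e hVp hu hvv
    have hy := value_sq hmon f hVp hu hvv
    have hre : (r : 𝓞 K) ^ dg S₀ e ∉ p := fun h => hr (hp.mem_of_pow_mem _ h)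
    have hrf : (r : 𝓞 K) ^ dg S₀ f ∉ p := fun h => hr (hp.mem_of_pow_mem _ h)
    have hm₀0 : (m₀ : 𝓞 K) ≠ 0 := by
      intro h
      apply hmK
      rw [hm₀]
      push_cast
      rw [h, mul_zero]
    have hform : ∀ (γ : 𝓞 K) (g : (𝓞 K)[X] → ℕ), vA S₀ γ (dg S₀ g) g u (m * v) =
        (γ * (v ^ dg S₀ g * ∏ P ∈ S₀, hv P u (m * v) ^ g P)) * ((m₀ : 𝓞 K) ^ dg S₀ g) ^ 2 := by
      intro γ g
      unfold vA
      rw [mul_pow (m : 𝓞 K) v]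
      have h1 : (m : 𝓞 K) ^ dg S₀ g = ((m₀ : 𝓞 K) ^ dg S₀ g) ^ 2 := by
        rw [← pow_mul, mul_comm (dg S₀ g) 2, pow_mul]
        congr 1
        rw [hm₀]
        push_cast
        ring
      rw [h1]
      ring
    have hLC : LC p α β → Harm J (vA S₀ α (dg S₀ e) e u (m * v))
        (vA S₀ β (dg S₀ f) f u (m * v)) p := by
      intro h
      right
      rw [hform, hform]
      exact Helper79.CB.lc_mul hp hp0 (pow_ne_zero _ hm₀0) (pow_ne_zero _ hm₀0)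
        (lc_twist hp hp0 hre hrf hx hy h)
    by_cases hαβ : α * β ∈ p
    · rcases hharm p hp hp0 hαβ with ⟨h1, h2⟩ | h1
      · exact Or.inl ⟨h1, fun h3 => h2 (h3.of_dvd (pow_dvd_pow 2 hJ0))⟩
      · exact hLC h1
    · refine hLC ⟨0, 0, val_zero_iff.2 fun h => hαβ (p.mul_mem_right _ h),
        val_zero_iff.2 fun h => hαβ (p.mul_mem_left _ h), Or.inl ⟨Even.zero, Even.zero⟩⟩
  · have h2m : (2 : 𝓞 K) ∣ m := by
      have h3 : 2 ∣ m :=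
        (((Dvd.intro _ rfl).trans (Dvd.intro _ rfl)).trans (Dvd.intro _ rfl)).trans hm1
      exact_mod_cast (Nat.cast_dvd_cast (α := 𝓞 K) h3)
    have h2p : (2 : 𝓞 K) ∉ p := fun h => hmp (mem_dvd h2m h)
    have hm1p : (m1 : 𝓞 K) ∉ p := fun h =>
      hmp (mem_dvd (Nat.cast_dvd_cast ((Dvd.intro_left _ rfl).trans hm1)) h)
    have hnot : ∀ a : 𝓞 K, Ideal.absNorm (Ideal.span {a}) ∣ m → a ∉ p := by
      intro a ha h
      apply hmp
      refine mem_dvd (Nat.cast_dvd_cast ha) ?_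
      exact (Ideal.span_singleton_le_iff_mem p).2 h (Ideal.absNorm_mem (Ideal.span {a}))
    have hαp : α ∉ p := hnot α
      ((((Dvd.intro_left _ rfl).trans (Dvd.intro _ rfl)).trans (Dvd.intro _ rfl)).trans hm1)
    have hβp : β ∉ p := hnot β
      (((Dvd.intro_left _ rfl).trans (Dvd.intro _ rfl)).trans hm1)
    by_cases hvp : v ∈ p
    · left
      refine ⟨odd_absNorm hp hp0 h2p, fun h => ?_⟩
      exact (hP ⟨p, hp, hp0⟩ h).1 hvp
    have hVp : (m : 𝓞 K) * v ∉ p := fun h => (hp.mem_or_mem h).elim hmp hvp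
    have key : ∀ g : (𝓞 K)[X] → ℕ, ∏ P ∈ S₀, hv P u (m * v) ^ g P ∈ p →
        Harm J (vA S₀ α (dg S₀ e) e u (m * v)) (vA S₀ β (dg S₀ f) f u (m * v)) p := by
      intro g hg
      obtain ⟨P, hPS, hPp⟩ := (Ideal.IsPrime.prod_mem_iff).1 hg
      have hPp' := hp.mem_of_pow_mem _ hPp
      by_cases hPS1 : P ∈ S
      · left
        exact ⟨odd_absNorm hp hp0 h2p, fun h => (hP ⟨p, hp, hp0⟩ h).2 P hPS1 hPp'⟩
      · right
        exact hfree P hPS hPS1 p hp hp0 hm1p u _ hVp hne hPp'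
    have key2 : ∀ (γ : 𝓞 K), γ ∉ p → ∀ g : (𝓞 K)[X] → ℕ, vA S₀ γ (dg S₀ g) g u (m * v) ∈ p →
        Harm J (vA S₀ α (dg S₀ e) e u (m * v)) (vA S₀ β (dg S₀ f) f u (m * v)) p := by
      intro γ hγ g hg
      rcases hp.mem_or_mem hg with h4 | h4
      · rcases hp.mem_or_mem h4 with h5 | h5
        · exact absurd h5 hγ
        · exact absurd (hp.mem_of_pow_mem _ h5) hVp
      · exact key g h4
    rcases hp.mem_or_mem hmem with h3 | h3
    · exact key2 α hαp e h3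
    · exact key2 β hβp f h3

end Pool.Agent.Helper3.CB
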