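import Pool.Agent.Helper92.CB.Dens
import Pool.Agent.Helper56.CB.Conic
import Pool.Agent.Helper65.CB.TEDefs
import Pool.Agent.Helper16.CB.Alg

/-! Potential density of a conic bundle over an affine base from harmless points of the base over
a finite extension. -/

set_option autoImplicit false

namespace Pool.Agent.Helper3.CB

open Polynomial AlgebraicGeometry CategoryTheory Pool.Agent.Helper15 Pool.Agent.Helper92.CB
open NumberField Pool.Agent.Helper65.CB

/-- Separation of functions by points. -/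
theorem separateM {K M L A : Type} [Field K] [Field M] [Field L] [Algebra K M] [Algebra M L]
    [Algebra K L] [IsScalarTower K M L]
    [CommRing A] [IsDomain A] [Algebra K A] [CharZero A] (a b : A) (ha : a ≠ 0) (hb : b ≠ 0)
    (H : ∀ d : A, d ≠ 0 → ∃ φ : A →ₐ[K] M, φ d ≠ 0 ∧
      ∀ Y : Finset L, ∃ x y : L, y ∉ Y ∧
        x ^ 2 = algebraMap M L (φ a) * y ^ 2 + algebraMap M L (φ b))
    (g : MvPolynomial (Fin 2) A ⧸ Ideal.span {eqn a b})
    (hg : ∀ ψ : (MvPolynomial (Fin 2) A ⧸ Ideal.span {eqn a b}) →ₐ[K] L, ψ g = 0) : g = 0 := by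
  classical
  obtain ⟨G, rfl⟩ := Ideal.Quotient.mk_surjective g
  set f : A[X][X] := X ^ 2 - C (C a * X ^ 2 + C b) with hf
  have hfm : f.Monic := monic_X_pow_sub_C _ (by norm_num)
  set r := Th A G %ₘ f with hr
  by_cases hr0 : r = 0
  · rw [hr, modByMonic_eq_zero_iff_dvd hfm] at hr0
    obtain ⟨H1, hH1⟩ := hr0
    rw [Ideal.Quotient.eq_zero_iff_mem, Ideal.mem_span_singleton]
    refine ⟨Ti A H1, ?_⟩
    rw [← Ti_Th A G, hH1, map_mul, hf, ← Th_eqn, Ti_Th]
  exfalso
  have hdeg : r.natDegree < 2 := by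
    have hfd : f.natDegree = 2 := natDegree_X_pow_sub_C
    have := natDegree_modByMonic_lt (Th A G) hfm (by
      intro h1
      rw [h1] at hfd
      simp at hfd)
    rwa [hfd] at this
  have hrep : r = C (r.coeff 1) * X + C (r.coeff 0) :=
    eq_X_add_C_of_natDegree_le_one (by omega)
  set g0 := r.coeff 0
  set g1 := r.coeff 1
  set q : A[X] := C a * X ^ 2 + C b with hq
  set N : A[X] := g0 ^ 2 - q * g1 ^ 2 with hN
  have hN0 : N ≠ 0 := by
    intro h
    rw [hN, sub_eq_zero] at h
    by_cases h1 : g1 = 0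
    · rw [h1] at h
      have h2 : g0 = 0 := by
        have : g0 ^ 2 = 0 := by rw [h]; ring
        exact pow_eq_zero_iff (two_ne_zero) |>.mp this
      apply hr0
      rw [hrep, h1, h2]
      simp
    · exact no_sq_mul' ha hb g0 g1 h1 h
  set n := N.leadingCoeff with hn
  have hn0 : n ≠ 0 := leadingCoeff_ne_zero.mpr hN0
  obtain ⟨φ, hφ, hxy⟩ := H n hn0
  set σ : A →+* L := (algebraMap M L).comp (φ : A →+* M) with hσ
  have hσn : σ n ≠ 0 := by
    show algebraMap M L (φ n) ≠ 0
    rwa [Ne, map_eq_zero_iff _ (algebraMap M L).injective]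
  have hNL : N.map σ ≠ 0 := by
    intro h
    apply hσn
    rw [hn, leadingCoeff, ← coeff_map, h, coeff_zero]
  obtain ⟨x, y, hyY, hx⟩ := hxy (N.map σ).roots.toFinset
  have hx' : x ^ 2 = σ a * y ^ 2 + σ b := hx
  have hNy : (N.map σ).eval y ≠ 0 := by
    intro h
    apply hyY
    rw [Multiset.mem_toFinset, mem_roots hNL]
    exact h
  -- the point
  set ψ0 : MvPolynomial (Fin 2) A →+* L := MvPolynomial.eval₂Hom σ ![x, y] with hψ0
  have hker : ∀ p ∈ Ideal.span {eqn a b}, ψ0 p = 0 := by
    intro p hp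
    rw [Ideal.mem_span_singleton] at hp
    obtain ⟨t, rfl⟩ := hp
    have : ψ0 (eqn a b) = 0 := by
      simp only [hψ0, eqn, map_sub, map_mul, map_pow, MvPolynomial.eval₂Hom_X',
        MvPolynomial.eval₂Hom_C, Matrix.cons_val_zero, Matrix.cons_val_one]
      rw [hx']
      ring
    rw [map_mul, this, zero_mul]
  have hcomm : ∀ k : K, ψ0 (algebraMap K (MvPolynomial (Fin 2) A) k) = algebraMap K L k := by
    intro k
    have h1 : algebraMap K (MvPolynomial (Fin 2) A) k = MvPolynomial.C (algebraMap K A k) := rfl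
    rw [h1, hψ0, MvPolynomial.coe_eval₂Hom, MvPolynomial.eval₂_C]
    show algebraMap M L (φ (algebraMap K A k)) = _
    rw [φ.commutes, ← IsScalarTower.algebraMap_apply K M L]
  let ψ : (MvPolynomial (Fin 2) A ⧸ Ideal.span {eqn a b}) →ₐ[K] L :=
    { Ideal.Quotient.lift (Ideal.span {eqn a b}) ψ0 hker with
      commutes' := fun k => by
        show Ideal.Quotient.lift (Ideal.span {eqn a b}) ψ0 hker
          (Ideal.Quotient.mk _ (algebraMap K (MvPolynomial (Fin 2) A) k)) = _
        rw [Ideal.Quotient.lift_mk, hcomm] }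
  have hG0 : ψ0 G = 0 := by
    have := hg ψ
    exact this
  have h1 : (Th A G).eval₂ (eval₂RingHom σ y) x = 0 := by
    rw [eval_Th]
    exact hG0
  have hfe : f.eval₂ (eval₂RingHom σ y) x = 0 := by
    rw [hf, ← Th_eqn, eval_Th]
    exact hker _ (Ideal.mem_span_singleton_self _)
  have h2 : r.eval₂ (eval₂RingHom σ y) x = 0 := by
    have h3 := modByMonic_add_div (Th A G) f
    rw [← h3, eval₂_add, eval₂_mul, hfe, zero_mul, add_zero] at h1
    exact h1
  have hqe : (q.map σ).eval y = x ^ 2 := by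
    rw [hq, hx']
    simp
  have h4 : (g1.map σ).eval y * x + (g0.map σ).eval y = 0 := by
    rw [hrep, eval₂_add, eval₂_mul, eval₂_C, eval₂_X, eval₂_C] at h2
    rw [Polynomial.eval_map, Polynomial.eval_map]
    simpa using h2
  apply hNy
  rw [hN, Polynomial.map_sub, Polynomial.map_mul, Polynomial.map_pow, Polynomial.map_pow, eval_sub,
    eval_mul, eval_pow, eval_pow, hqe]
  have h5 : (g0.map σ).eval y = - ((g1.map σ).eval y * x) := by linear_combination h4
  rw [h5]
  ring

/-- **ENDHDM.** -/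
theorem end_hdm (K M : Type) [Field K] [NumberField K] [Field M] [NumberField M] [Algebra K M]
    (A : Type) [CommRing A] [IsDomain A] [Algebra K A] (a b : A) (ha : a ≠ 0) (hb : b ≠ 0) (J : ℕ)
    (hd : HDM K M A J a b)
    (X : Scheme.{0}) (s : X ⟶ Spec (CommRingCat.of K)) [IrreducibleSpace X]
    (hX : BirationalOver K X (Spec (CommRingCat.of (MvPolynomial (Fin 2) A ⧸ Ideal.span
      {(MvPolynomial.X 0 ^ 2 - MvPolynomial.C a * MvPolynomial.X 1 ^ 2 - MvPolynomial.C b :
        MvPolynomial (Fin 2) A)}))) s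
      (Spec.map (CommRingCat.ofHom (algebraMap K (MvPolynomial (Fin 2) A ⧸ Ideal.span
      {(MvPolynomial.X 0 ^ 2 - MvPolynomial.C a * MvPolynomial.X 1 ^ 2 - MvPolynomial.C b :
        MvPolynomial (Fin 2) A)}))))) :
    PotentiallyDense K X s := by
  obtain ⟨L, iL, iA, hfin, hL⟩ := solve M J (Pool.Agent.Helper16.CB.algebraic_block M J)
  let iKL : Algebra K L := ((algebraMap M L).comp (algebraMap K M)).toAlgebra
  have htower : IsScalarTower K M L := IsScalarTower.of_algebraMap_eq (fun x => rfl)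
  have hKM : FiniteDimensional K M := inferInstance
  have hfKL : FiniteDimensional K L := FiniteDimensional.trans K M L
  have hchL : CharZero L := charZero_of_injective_algebraMap (algebraMap M L).injective
  have hchA : CharZero A := charZero_of_injective_algebraMap (algebraMap K A).injective
  refine PotentiallyDense.of_birational K X _ s _ hX
    ⟨L, inferInstance, inferInstance, inferInstance, ?_⟩
  refine dense_ratPts_spec K L _
    (fun g hg => separateM (M := M) a b ha hb (fun d hd0 => ?_) g hg)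
  obtain ⟨φ, hφ, hHS⟩ := hd d hd0
  obtain ⟨hx, hy, X₀, Y₀, hXY⟩ := hL _ _ hHS
  refine ⟨φ, hφ, fun Y => ?_⟩
  have hinj : Function.Injective (algebraMap M L) := (algebraMap M L).injective
  obtain ⟨x', y', h3, h4⟩ := Pool.Agent.Helper56.CB.conic_points
    (a := algebraMap M L (φ a)) (b := algebraMap M L (φ b))
    (by rwa [Ne, map_eq_zero_iff _ hinj]) (by rwa [Ne, map_eq_zero_iff _ hinj])
    (x := X₀) (y := Y₀) (z := 1) (Or.inr (Or.inr one_ne_zero))
    (by linear_combination hXY) Y
  exact ⟨x', y', h3, h4⟩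

end Pool.Agent.Helper3.CB
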