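import Pool.Agent.Helper16.CB.Defs

/-! Going up with the local condition (A7 of the algebraic block). -/

namespace Pool.Agent.Helper3.CB

open NumberField Pool.Agent.Helper16.CB

/-- membership of `ι (b - h ^ 2)` -/
lemma up_sq {R S : Type*} [CommRing R] [CommRing S] (ι : R →+* S) {q : Ideal S} {p : Ideal R}
    {e : ℕ} (he1 : 1 ≤ e) (hmem : ∀ (x : R) (m : ℕ), x ∈ p ^ m → ι x ∈ q ^ (e * m))
    {x h : R} {n : ℕ} (hx : x - h ^ 2 ∈ p ^ (n + 1)) : ι x - ι h ^ 2 ∈ q ^ (e * n + 1) := by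
  have h1 := hmem _ _ hx
  rw [map_sub, map_pow] at h1
  refine Ideal.pow_le_pow_right ?_ h1
  rw [mul_add, mul_one]
  omega

/-- The local condition goes up. -/
lemma lc_up {R S : Type*} [CommRing R] [CommRing S] (ι : R →+* S) {q : Ideal S} {p : Ideal R}
    {e : ℕ} (he1 : 1 ≤ e) (hmem : ∀ (x : R) (m : ℕ), x ∈ p ^ m → ι x ∈ q ^ (e * m))
    (hval : ∀ (x : R) (m : ℕ), Val p x m → Val q (ι x) (e * m)) {a b : R} (h : LC p a b) :
    LC q (ι a) (ι b) := by
  obtain ⟨α, β, hα, hβ, hc⟩ := h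
  refine ⟨e * α, e * β, hval a α hα, hval b β hβ, ?_⟩
  by_cases hee : Even e
  · exact Or.inl ⟨hee.mul_right _, hee.mul_right _⟩
  have hmul : ∀ n : ℕ, Even (e * n) ↔ Even n := fun n => by
    rw [Nat.even_mul]
    exact ⟨fun h => h.resolve_left hee, Or.inr⟩
  simp only [hmul]
  rcases hc with hc | ⟨h1, h2, g, hg⟩ | ⟨h1, h2, g, hg⟩ | ⟨h1, h2, g, hg⟩
  · exact Or.inl hc
  · exact Or.inr (Or.inl ⟨h1, h2, ι g, up_sq ι he1 hmem hg⟩)
  · exact Or.inr (Or.inr (Or.inl ⟨h1, h2, ι g, up_sq ι he1 hmem hg⟩))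
  · refine Or.inr (Or.inr (Or.inr ⟨h1, h2, ι g, ?_⟩))
    have h3 := up_sq ι he1 hmem hg
    rw [map_neg, map_mul, mul_add] at h3
    exact h3

/-- The local condition at primes where elements of even valuation are squares. -/
lemma lc_sq {R S : Type*} [CommRing R] [CommRing S] (ι : R →+* S) {q : Ideal S} {p : Ideal R}
    {e : ℕ}
    (hval : ∀ (x : R) (m : ℕ), Val p x m → Val q (ι x) (e * m))
    (hsq : ∀ (x : R) (m : ℕ), Val p x (2 * m) → ∃ h : S, ι x - h ^ 2 ∈ q ^ (e * (2 * m) + 1))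
    (hmul : ∀ (x y : R) (m n : ℕ), Val p x m → Val p y n → Val p (x * y) (m + n))
    {a b : R} {α β : ℕ} (hα : Val p a α) (hβ : Val p b β) :
    LC q (ι a) (ι b) := by
  refine ⟨e * α, e * β, hval a α hα, hval b β hβ, ?_⟩
  by_cases hee : Even e
  · exact Or.inl ⟨hee.mul_right _, hee.mul_right _⟩
  have hm : ∀ n : ℕ, Even (e * n) ↔ Even n := fun n => by
    rw [Nat.even_mul]
    exact ⟨fun h => h.resolve_left hee, Or.inr⟩
  simp only [hm]
  by_cases h1 : Even α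
  · by_cases h2 : Even β
    · exact Or.inl ⟨h1, h2⟩
    · refine Or.inr (Or.inr (Or.inl ⟨h1, h2, ?_⟩))
      obtain ⟨m, hm⟩ := h1.two_dvd
      rw [hm] at hα ⊢
      exact hsq a m hα
  · by_cases h2 : Even β
    · refine Or.inr (Or.inl ⟨h1, h2, ?_⟩)
      obtain ⟨m, hm⟩ := h2.two_dvd
      rw [hm] at hβ ⊢
      exact hsq b m hβ
    · refine Or.inr (Or.inr (Or.inr ⟨h1, h2, ?_⟩))
      have h3 : Even (α + β) := by
        rw [Nat.not_even_iff_odd] at h1 h2
        exact h1.add_odd h2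
      obtain ⟨m, hm⟩ := h3.two_dvd
      have h4 : Val p (-(a * b)) (α + β) := by
        have h5 := hmul a b α β hα hβ
        exact ⟨neg_mem h5.1, fun h => h5.2 (by simpa using neg_mem h)⟩
      rw [hm] at h4
      obtain ⟨g, hg⟩ := hsq _ m h4
      refine ⟨g, ?_⟩
      rw [map_neg, map_mul, ← hm, mul_add] at hg
      exact hg

end Pool.Agent.Helper3.CB
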