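import Pool.Agent.Helper3.CB.LcCore
import Pool.Agent.Helper3.CB.ValB

/-! A7 of the algebraic block, from A7a and A7b. -/

namespace Pool.Agent.Helper3.CB

open NumberField Pool.Agent.Helper16.CB

/-- A7 from A7a and A7b -/
theorem lc_of_harm_of {K L : Type*} [Field K] [NumberField K] [Field L] [NumberField L]
    [Algebra K L] {J : ℕ} {a b : 𝓞 K} (ha : a ≠ 0) (hb : b ≠ 0)
    {q : Ideal (𝓞 L)} (hq : q.IsPrime) (hq0 : q ≠ ⊥) {e : ℕ} (he1 : 1 ≤ e)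
    (hmem : ∀ (x : 𝓞 K) (m : ℕ), x ∈ (q.comap (algebraMap (𝓞 K) (𝓞 L))) ^ m →
        algebraMap (𝓞 K) (𝓞 L) x ∈ q ^ (e * m))
    (hval : ∀ (x : 𝓞 K) (m : ℕ), Val (q.comap (algebraMap (𝓞 K) (𝓞 L))) x m →
        Val q (algebraMap (𝓞 K) (𝓞 L) x) (e * m))
    (hsq : Odd (Ideal.absNorm (q.comap (algebraMap (𝓞 K) (𝓞 L)))) →
      ¬ Ideal.absNorm (q.comap (algebraMap (𝓞 K) (𝓞 L))) ≡ 1 [MOD 2 ^ J] →
      ∀ (x : 𝓞 K) (m : ℕ), Val (q.comap (algebraMap (𝓞 K) (𝓞 L))) x (2 * m) →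
        ∃ h : 𝓞 L, algebraMap (𝓞 K) (𝓞 L) x - h ^ 2 ∈ q ^ (e * (2 * m) + 1))
    (h : Harm J a b (q.comap (algebraMap (𝓞 K) (𝓞 L)))) :
    LC q (algebraMap (𝓞 K) (𝓞 L) a) (algebraMap (𝓞 K) (𝓞 L) b) := by
  have hp : (q.comap (algebraMap (𝓞 K) (𝓞 L))).IsPrime := Ideal.comap_isPrime _ _
  have hp0 : q.comap (algebraMap (𝓞 K) (𝓞 L)) ≠ ⊥ := comap_ne_bot hq0
  rcases h with ⟨h1, h2⟩ | h1
  · obtain ⟨α, hα⟩ := val_exists hp hp0 ha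
    obtain ⟨β, hβ⟩ := val_exists hp hp0 hb
    exact lc_sq (algebraMap (𝓞 K) (𝓞 L)) hval (hsq h1 h2)
      (fun x y m n hx hy => val_mul hp hp0 hx hy) hα hβ
  · exact lc_up (algebraMap (𝓞 K) (𝓞 L)) he1 hmem hval h1

end Pool.Agent.Helper3.CB
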