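import Pool.Agent.Helper4.CB.STM
import Pool.Agent.Helper16.CB.Val

/-! The pointwise theorem for products of powers, from the sieve and the algebraic block. -/

set_option autoImplicit false

namespace Pool.Agent.Helper3.CB

open NumberField Polynomial Pool.Agent.Helper4.CB Pool.Agent.Helper16.CB

/-- the algebraic block: one finite extension for all pairs with harmless primes -/
def AlgStmt (K : Type) [Field K] [NumberField K] (J : ℕ) : Prop :=
  ∃ F : IntermediateField K (AlgebraicClosure K), FiniteDimensional K F ∧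
      ∀ a b : 𝓞 K, a ≠ 0 → b ≠ 0 →
        (∀ p : Ideal (𝓞 K), p.IsPrime → p ≠ ⊥ → a * b ∈ p → Harm J a b p) →
        ∃ X Y : F, X ^ 2 - algebraMap K F a * Y ^ 2 = algebraMap K F b

lemma mem_dvd {R : Type*} [CommRing R] {I : Ideal R} {x y : R} (h : x ∣ y) (hx : x ∈ I) :
    y ∈ I := by
  obtain ⟨c, rfl⟩ := h
  exact I.mul_mem_right c hx

/-- `P(u, V) = u ^ d` modulo `V`. -/
theorem hv_sub {K : Type} [Field K] [NumberField K] {P : (𝓞 K)[X]} (hP : P.Monic)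
    (u V : 𝓞 K) : V ∣ hv P u V - u ^ P.natDegree := by
  unfold hv
  rw [eval_eq_sum_range, natDegree_scaleRoots, Finset.sum_range_succ]
  have h1 : (P.scaleRoots V).coeff P.natDegree = 1 := by
    rw [coeff_scaleRoots, Nat.sub_self, pow_zero, mul_one]
    exact hP
  rw [h1, one_mul, add_sub_cancel_right]
  refine Finset.dvd_sum fun i hi => ?_
  rw [Finset.mem_range] at hi
  rw [coeff_scaleRoots]
  refine Dvd.dvd.mul_right (Dvd.dvd.mul_left (dvd_pow_self V ?_) _) _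
  omega

/-- the norm of a prime which does not contain two is odd -/
lemma odd_absNorm {K : Type} [Field K] [NumberField K] {p : Ideal (𝓞 K)} (hp : p.IsPrime)
    (hp0 : p ≠ ⊥) (h2 : (2 : 𝓞 K) ∉ p) : Odd (Ideal.absNorm p) := by
  classical
  by_contra hcon
  rw [Nat.not_odd_iff_even] at hcon
  have hmax : p.IsMaximal := hp.isMaximal hp0
  let _ : Field (𝓞 K ⧸ p) := Ideal.Quotient.field p
  have : Finite (𝓞 K ⧸ p) := Ideal.finiteQuotientOfFreeOfNeBot p hp0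
  let _ : Fintype (𝓞 K ⧸ p) := Fintype.ofFinite _
  have h3 : Ideal.absNorm p = Fintype.card (𝓞 K ⧸ p) := by
    rw [Ideal.absNorm_apply, Submodule.cardQuot_apply, Nat.card_eq_fintype_card]
  rw [h3] at hcon
  have h4 : ringChar (𝓞 K ⧸ p) = 2 := by
    rw [FiniteField.even_card_iff_char_two]
    exact Nat.even_iff.1 hcon
  apply h2
  have h5 : ((2 : ℕ) : 𝓞 K ⧸ p) = 0 := by
    rw [← h4]
    exact ringChar.Nat.cast_ringChar
  rw [← Ideal.Quotient.eq_zero_iff_mem]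
  have h6 : (Ideal.Quotient.mk p) (2 : 𝓞 K) = ((2 : ℕ) : 𝓞 K ⧸ p) := by
    rw [← map_natCast (Ideal.Quotient.mk p) 2]
    norm_num
  rw [h6, h5]

/-- The local condition at a prime which divides `V`. -/
lemma lc_of_mem {K : Type} [Field K] [NumberField K] {p : Ideal (𝓞 K)} (hp : p.IsPrime)
    {A B h : 𝓞 K} (hA : A ≠ 0) (hB : B ∉ p) (hh : B - h ^ 2 ∈ p) : LC p A B := by
  obtain ⟨α, hα⟩ := exists_val hp hA
  refine ⟨α, 0, hα, val_zero_iff.2 hB, ?_⟩
  by_cases h1 : Even α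
  · exact Or.inl ⟨h1, Even.zero⟩
  · refine Or.inr (Or.inl ⟨h1, Even.zero, h, ?_⟩)
    rw [zero_add, pow_one]
    exact hh

/-- The product of the powers modulo `V`. -/
lemma prod_sub_mem {K : Type} [Field K] [NumberField K] {p : Ideal (𝓞 K)}
    {S : Finset (𝓞 K)[X]} (hS : ∀ P ∈ S, P.Monic) (f : (𝓞 K)[X] → ℕ) {u V : 𝓞 K} (hV : V ∈ p) :
    ∏ P ∈ S, hv P u V ^ f P - u ^ (∑ P ∈ S, f P * P.natDegree) ∈ p := by
  rw [← Ideal.Quotient.eq, map_prod, ← Finset.prod_pow_eq_pow_sum, map_prod]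
  refine Finset.prod_congr rfl fun P hP => ?_
  rw [mul_comm, pow_mul, map_pow, map_pow]
  congr 1
  rw [Ideal.Quotient.eq]
  exact mem_dvd (hv_sub (hS P hP) u V) hV

/-- **PWA.** -/
theorem pwA_of (K : Type) [Field K] [NumberField K] (halg : ∀ J, AlgStmt K J) (dm : ℕ)
    (hs : SieveStmt K dm) (D : ℕ) :
    ∃ (L : Type) (_ : Field L) (_ : Algebra K L), FiniteDimensional K L ∧
    ∀ S : Finset (𝓞 K)[X], S.card ≤ D →
    (∀ P ∈ S, P.Monic ∧ 1 ≤ P.natDegree ∧ P.natDegree ≤ dm ∧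
      Irreducible (P.map (algebraMap (𝓞 K) K))) →
    ∀ e f : (𝓞 K)[X] → ℕ, Even (∑ P ∈ S, f P * P.natDegree) →
    ∀ α : 𝓞 K, α ≠ 0 → ∀ ε : ℕ, ∀ Z : Finset K,
    ∃ (m : ℕ) (u v : 𝓞 K), m ≠ 0 ∧ v ≠ 0 ∧ (u : K) / (m * v) ∉ Z ∧
      (∀ P ∈ S, hv P u (m * v) ≠ 0) ∧
      ∃ x y : L, x ^ 2 -
        algebraMap K L ((α * (m * v) ^ ε * ∏ P ∈ S, hv P u (m * v) ^ e P : 𝓞 K) : K) * y ^ 2 =
        algebraMap K L ((∏ P ∈ S, hv P u (m * v) ^ f P : 𝓞 K) : K) := by
  obtain ⟨J, hJ1, hJ⟩ := hs D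
  obtain ⟨F, hfin, hF⟩ := halg J
  refine ⟨F, inferInstance, inferInstance, hfin, ?_⟩
  intro S hcard hS e f hf α hα ε Z
  have hN0 : Ideal.absNorm (Ideal.span {α}) ≠ 0 := by
    rw [Ne, Ideal.absNorm_eq_zero_iff, Ideal.span_singleton_eq_bot]
    exact hα
  obtain ⟨m, u, v, T, hm0, hm1, -, hv0, hT, hcop, hZ, hP⟩ := hJ S hcard hS
    (2 * Ideal.absNorm (Ideal.span {α})) (by positivity) Z
  have hne : ∀ P ∈ S, hv P u (m * v) ≠ 0 := by
    intro P hPS h0
    have φ : K →+* ℂ := Classical.arbitrary _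
    have h1 := ((hP P hPS).1 φ).1
    rw [h0] at h1
    simp only [map_zero, norm_zero] at h1
    have h2 : 0 < (T / 2) ^ P.natDegree := by positivity
    linarith
  refine ⟨m, u, v, hm0, hv0, hZ, hne, ?_⟩
  have hmK : (m : 𝓞 K) ≠ 0 := by exact_mod_cast hm0
  have hA : α * (m * v) ^ ε * ∏ P ∈ S, hv P u (m * v) ^ e P ≠ 0 := by
    refine mul_ne_zero (mul_ne_zero hα (pow_ne_zero _ (mul_ne_zero hmK hv0))) ?_
    exact Finset.prod_ne_zero_iff.2 fun P hPS => pow_ne_zero _ (hne P hPS)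
  have hB : ∏ P ∈ S, hv P u (m * v) ^ f P ≠ 0 :=
    Finset.prod_ne_zero_iff.2 fun P hPS => pow_ne_zero _ (hne P hPS)
  refine hF _ _ hA hB ?_
  intro p hp hp0 hmem
  by_cases hmv : (m : 𝓞 K) * v ∈ p
  · right
    have hu : u ∉ p := by
      intro hu
      obtain ⟨c, d, hcd⟩ := hcop
      apply hp.ne_top
      rw [Ideal.eq_top_iff_one, ← hcd]
      exact p.add_mem (p.mul_mem_left _ hu) (p.mul_mem_left _ hmv)
    obtain ⟨k, hk⟩ := hf.two_dvd
    have h1 := prod_sub_mem (S := S) (fun P hPS => (hS P hPS).1) f (u := u) hmv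
    rw [hk, mul_comm 2 k, pow_mul] at h1
    refine lc_of_mem hp hA ?_ h1
    intro h2
    have h3 := p.sub_mem h2 h1
    rw [sub_sub_cancel] at h3
    exact hu (hp.mem_of_pow_mem _ (hp.mem_of_pow_mem _ h3))
  · left
    have h2m : (2 : 𝓞 K) ∣ m := by
      have h3 : 2 ∣ m := (Dvd.intro _ rfl).trans hm1
      exact_mod_cast (Nat.cast_dvd_cast (α := 𝓞 K) h3)
    have hmp : (m : 𝓞 K) ∉ p := fun h => hmv (p.mul_mem_right _ h)
    have h2p : (2 : 𝓞 K) ∉ p := fun h => hmp (mem_dvd h2m h)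
    have hαp : α ∉ p := by
      intro h
      apply hmp
      have h4 : (Ideal.absNorm (Ideal.span {α}) : 𝓞 K) ∣ m := by
        have h5 : Ideal.absNorm (Ideal.span {α}) ∣ m := (Dvd.intro_left _ rfl).trans hm1
        exact Nat.cast_dvd_cast h5
      refine mem_dvd h4 ?_
      have h6 := Ideal.absNorm_mem (Ideal.span {α})
      exact (Ideal.span_singleton_le_iff_mem p).2 h h6
    refine ⟨odd_absNorm hp hp0 h2p, ?_⟩
    have key : ∀ g : (𝓞 K)[X] → ℕ, ∏ P ∈ S, hv P u (m * v) ^ g P ∈ p →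
        ¬ Ideal.absNorm p ≡ 1 [MOD 2 ^ J] := by
      intro g hg
      obtain ⟨P, hPS, hPp⟩ := (Ideal.IsPrime.prod_mem_iff).1 hg
      exact (hP P hPS).2 ⟨p, hp, hp0⟩ (hp.mem_of_pow_mem _ hPp)
    rcases hp.mem_or_mem hmem with h3 | h3
    · rcases hp.mem_or_mem h3 with h4 | h4
      · rcases hp.mem_or_mem h4 with h5 | h5
        · exact absurd h5 hαp
        · exact absurd (hp.mem_of_pow_mem _ h5) hmv
      · exact key e h4
    · exact key f h3

end Pool.Agent.Helper3.CB
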